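import Pool.Agent.W51.BS.LL

set_option autoImplicit false

namespace Pool.Agent.W51.BS

open Real MeasureTheory Set Pool.Agent.W719.BS

theorem conc_max (f f' f'' : ℝ → ℝ) (a b c : ℝ) (ha : a < c) (hb : c < b)
    (hf : ContinuousOn f (Icc a b)) (hf' : ∀ x ∈ Ioo a b, HasDerivAt f (f' x) x)
    (hf'' : ∀ x ∈ Ioo a b, HasDerivAt f' (f'' x) x) (hneg : ∀ x ∈ Ioo a b, f'' x ≤ 0)
    (h0 : f' c = 0) : ∀ x ∈ Icc a b, f x ≤ f c := by
  have hanti : AntitoneOn f' (Ioo a b) := by
    apply antitoneOn_of_deriv_nonpos (convex_Ioo a b)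
    · intro x hx
      exact (hf'' x hx).continuousAt.continuousWithinAt
    · intro x hx
      rw [interior_Ioo] at hx
      exact (hf'' x hx).differentiableAt.differentiableWithinAt
    · intro x hx
      rw [interior_Ioo] at hx
      rw [(hf'' x hx).deriv]
      exact hneg x hx
  intro x hx
  rcases le_total c x with h | h
  · have : AntitoneOn f (Icc c b) := by
      apply antitoneOn_of_deriv_nonpos (convex_Icc c b)
      · exact hf.mono (Icc_subset_Icc ha.le le_rfl)
      · intro x hx
        rw [interior_Icc] at hx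
        exact (hf' x ⟨ha.trans hx.1, hx.2⟩).differentiableAt.differentiableWithinAt
      · intro x hx
        rw [interior_Icc] at hx
        rw [(hf' x ⟨ha.trans hx.1, hx.2⟩).deriv, ← h0]
        exact hanti ⟨ha, hb⟩ ⟨ha.trans hx.1, hx.2⟩ hx.1.le
    exact this ⟨le_rfl, hb.le⟩ ⟨h, hx.2⟩ h
  · have : MonotoneOn f (Icc a c) := by
      apply monotoneOn_of_deriv_nonneg (convex_Icc a c)
      · exact hf.mono (Icc_subset_Icc le_rfl hb.le)
      · intro x hx
        rw [interior_Icc] at hx
        exact (hf' x ⟨hx.1, hx.2.trans hb⟩).differentiableAt.differentiableWithinAt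
      · intro x hx
        rw [interior_Icc] at hx
        rw [(hf' x ⟨hx.1, hx.2.trans hb⟩).deriv, ← h0]
        exact hanti ⟨hx.1, hx.2.trans hb⟩ ⟨ha, hb⟩ hx.2.le
    exact this ⟨hx.1, h⟩ ⟨ha.le, le_rfl⟩ h

theorem gg_hasDeriv {x : ℝ} (h0 : 0 < x) (h1 : x < 1) :
    HasDerivAt gg (Real.pi * (Real.cos (Real.pi * x) / Real.sin (Real.pi * x))) x := by
  have hs := sin_pos' h0 h1
  unfold gg
  have h : HasDerivAt (fun x : ℝ => 2 * Real.sin (Real.pi * x))
      (2 * (Real.cos (Real.pi * x) * (Real.pi * 1))) x :=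
    (((hasDerivAt_id x).const_mul Real.pi).sin).const_mul 2
  convert h.log (by positivity) using 1
  field_simp

theorem concH {y z : ℝ} (hy : 0 < y) (hy1 : y < 1) (hz : 0 ≤ z) (hz1 : z ≤ 1 - y) :
    2 * LL (y + z) - 2 * LL z ≤ 4 * LL ((1 + y) / 2) -
      Real.pi * Real.sin (Real.pi * y) * (z - (1 - y) / 2) ^ 2 := by
  have key := conc_max
    (fun z => 2 * LL (y + z) - 2 * LL z +
      Real.pi * Real.sin (Real.pi * y) * (z - (1 - y) / 2) ^ 2)
    (fun z => 2 * gg (y + z) - 2 * gg z +
      Real.pi * Real.sin (Real.pi * y) * (2 * (z - (1 - y) / 2)))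
    (fun z => 2 * (Real.pi * (Real.cos (Real.pi * (y + z)) / Real.sin (Real.pi * (y + z)))) -
      2 * (Real.pi * (Real.cos (Real.pi * z) / Real.sin (Real.pi * z))) +
      Real.pi * Real.sin (Real.pi * y) * 2)
    0 (1 - y) ((1 - y) / 2) (by linarith) (by linarith) ?_ ?_ ?_ ?_ ?_ z ⟨hz, hz1⟩
  · simp only [sub_self] at key
    have e1 : y + (1 - y) / 2 = (1 + y) / 2 := by ring
    have e2 : LL ((1 - y) / 2) = - LL ((1 + y) / 2) := by
      rw [← LL_symm]
      congr 1
      ring
    rw [e1, e2] at key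
    linarith
  · have h1 : Continuous (fun z => LL (y + z)) := LL_cont.comp (by fun_prop)
    have h2 : Continuous (fun z => LL z) := LL_cont
    apply Continuous.continuousOn
    fun_prop
  · intro x hx
    have h1 : HasDerivAt (fun z => LL (y + z)) (gg (y + x)) x := by
      have := (LL_hasDeriv (x := y + x) (by linarith [hx.1]) (by linarith [hx.2]))
      simpa using this.comp_const_add y x
    have h2 := LL_hasDeriv (x := x) hx.1 (by linarith [hx.2])
    have h3 : HasDerivAt (fun z : ℝ => (z - (1 - y) / 2) ^ 2) (2 * (x - (1 - y) / 2)) x := by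
      have := ((hasDerivAt_id x).sub_const ((1 - y) / 2)).fun_pow 2
      simpa using this
    exact ((h1.const_mul 2).sub (h2.const_mul 2)).add (h3.const_mul _)
  · intro x hx
    have h1 : HasDerivAt (fun z => gg (y + z))
        (Real.pi * (Real.cos (Real.pi * (y + x)) / Real.sin (Real.pi * (y + x)))) x := by
      have := (gg_hasDeriv (x := y + x) (by linarith [hx.1]) (by linarith [hx.2]))
      simpa using this.comp_const_add y x
    have h2 := gg_hasDeriv (x := x) hx.1 (by linarith [hx.2])
    have h3 : HasDerivAt (fun z : ℝ => (2 * (z - (1 - y) / 2))) 2 x := by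
      have := ((hasDerivAt_id x).sub_const ((1 - y) / 2)).const_mul 2
      simpa using this
    exact ((h1.const_mul 2).sub (h2.const_mul 2)).add (h3.const_mul _)
  · intro x hx
    have s1 := sin_pos' (x := y + x) (by linarith [hx.1]) (by linarith [hx.2])
    have s2 := sin_pos' (x := x) hx.1 (by linarith [hx.2])
    have s3 := sin_pos' hy hy1
    have e : Real.sin (Real.pi * y) = Real.sin (Real.pi * (y + x)) * Real.cos (Real.pi * x) -
        Real.cos (Real.pi * (y + x)) * Real.sin (Real.pi * x) := by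
      rw [← Real.sin_sub]
      congr 1
      ring
    set A := Real.sin (Real.pi * (y + x))
    set B := Real.sin (Real.pi * x)
    have hA1 : A ≤ 1 := Real.sin_le_one _
    have hB1 : B ≤ 1 := Real.sin_le_one _
    have e2 : 2 * (Real.pi * (Real.cos (Real.pi * (y + x)) / A)) -
      2 * (Real.pi * (Real.cos (Real.pi * x) / B)) +
      Real.pi * Real.sin (Real.pi * y) * 2 =
      2 * Real.pi * (Real.sin (Real.pi * y)) * (1 - 1 / (A * B)) := by
      rw [mul_sub, mul_assoc (2 * Real.pi) _ (1 / (A * B))]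
      have : Real.sin (Real.pi * y) * (1 / (A * B)) =
          Real.cos (Real.pi * x) / B - Real.cos (Real.pi * (y + x)) / A := by
        rw [e]
        field_simp
      rw [this]
      ring
    rw [e2]
    have h1 : 1 ≤ 1 / (A * B) := by
      rw [le_div_iff₀ (by positivity)]
      nlinarith
    have h2 : 0 ≤ 2 * Real.pi * (Real.sin (Real.pi * y)) := by positivity
    nlinarith
  · have : gg (y + (1 - y) / 2) = gg ((1 - y) / 2) := by
      rw [← gg_symm]
      congr 1
      ring
    rw [this]
    ring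

theorem concE {y : ℝ} (hy : 0 ≤ y) (hy1 : y ≤ 1) :
    4 * LL ((1 + y) / 2) - LL y ≤ 4 * LL (3 / 4) - Real.pi / 2 * (y - 1 / 2) ^ 2 := by
  have key := conc_max
    (fun y => 4 * LL ((1 + y) / 2) - LL y + Real.pi / 2 * (y - 1 / 2) ^ 2)
    (fun y => 2 * gg ((1 + y) / 2) - gg y + Real.pi / 2 * (2 * (y - 1 / 2)))
    (fun y => Real.pi * (Real.cos (Real.pi * ((1 + y) / 2)) / Real.sin (Real.pi * ((1 + y) / 2))) -
      (Real.pi * (Real.cos (Real.pi * y) / Real.sin (Real.pi * y))) +
      Real.pi / 2 * 2)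
    0 1 (1 / 2) (by norm_num) (by norm_num) ?_ ?_ ?_ ?_ ?_ y ⟨hy, hy1⟩
  · simp only [sub_self] at key
    have e1 : (1 + 1 / 2 : ℝ) / 2 = 3 / 4 := by norm_num
    rw [e1, LL_half] at key
    linarith
  · have h1 : Continuous (fun y : ℝ => LL ((1 + y) / 2)) := LL_cont.comp (by fun_prop)
    have h2 : Continuous (fun z => LL z) := LL_cont
    apply Continuous.continuousOn
    fun_prop
  · intro x hx
    have h0 : HasDerivAt (fun y : ℝ => (1 + y) / 2) (1 / 2) x :=
      ((hasDerivAt_id x).const_add 1).div_const 2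
    have h1 := (LL_hasDeriv (x := (1 + x) / 2) (by linarith [hx.1]) (by linarith [hx.2])).comp x h0
    have h2 := LL_hasDeriv (x := x) hx.1 (by linarith [hx.2])
    have h3 : HasDerivAt (fun z : ℝ => (z - 1 / 2) ^ 2) (2 * (x - 1 / 2)) x := by
      have := ((hasDerivAt_id x).sub_const (1 / 2)).fun_pow 2
      simpa using this
    have h4 := ((h1.const_mul 4).sub h2).add (h3.const_mul (Real.pi / 2))
    exact h4.congr_deriv (by ring)
  · intro x hx
    have h0 : HasDerivAt (fun y : ℝ => (1 + y) / 2) (1 / 2) x :=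
      ((hasDerivAt_id x).const_add 1).div_const 2
    have h1 := (gg_hasDeriv (x := (1 + x) / 2) (by linarith [hx.1]) (by linarith [hx.2])).comp x h0
    have h2 := gg_hasDeriv (x := x) hx.1 (by linarith [hx.2])
    have h3 : HasDerivAt (fun z : ℝ => (2 * (z - 1 / 2))) 2 x := by
      have := ((hasDerivAt_id x).sub_const (1 / 2)).const_mul 2
      simpa using this
    have h4 := ((h1.const_mul 2).sub h2).add (h3.const_mul (Real.pi / 2))
    exact h4.congr_deriv (by ring)
  · intro x hx
    have s2 := sin_pos' (x := x) hx.1 (by linarith [hx.2])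
    have s3 := sin_pos' (x := x / 2) (by linarith [hx.1]) (by linarith [hx.2])
    have s4 : 0 < Real.cos (Real.pi * (x / 2)) := by
      apply Real.cos_pos_of_mem_Ioo
      constructor
      · nlinarith [Real.pi_pos, hx.1]
      · nlinarith [Real.pi_pos, hx.2]
    have e1 : Real.cos (Real.pi * ((1 + x) / 2)) = - Real.sin (Real.pi * (x / 2)) := by
      rw [← Real.cos_add_pi_div_two]
      congr 1
      ring
    have e2 : Real.sin (Real.pi * ((1 + x) / 2)) = Real.cos (Real.pi * (x / 2)) := by
      rw [← Real.sin_add_pi_div_two]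
      congr 1
      ring
    have e3 : Real.cos (Real.pi * x) = 1 - 2 * Real.sin (Real.pi * (x / 2)) ^ 2 := by
      rw [show Real.pi * x = 2 * (Real.pi * (x / 2)) by ring, Real.cos_two_mul]
      nlinarith [Real.sin_sq_add_cos_sq (Real.pi * (x / 2))]
    have e4 : Real.sin (Real.pi * x) = 2 * Real.sin (Real.pi * (x / 2)) *
        Real.cos (Real.pi * (x / 2)) := by
      rw [show Real.pi * x = 2 * (Real.pi * (x / 2)) by ring, Real.sin_two_mul]
    have e5 : Real.cos (Real.pi * ((1 + x) / 2)) / Real.sin (Real.pi * ((1 + x) / 2)) -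
        Real.cos (Real.pi * x) / Real.sin (Real.pi * x) = - (1 / Real.sin (Real.pi * x)) := by
      rw [e1, e2, e3, e4]
      field_simp
      ring
    have h1 : 1 ≤ 1 / Real.sin (Real.pi * x) := by
      rw [le_div_iff₀ s2]
      linarith [Real.sin_le_one (Real.pi * x)]
    have := Real.pi_pos
    nlinarith
  · have e1 : (1 + 1 / 2 : ℝ) / 2 = 3 / 4 := by norm_num
    rw [e1]
    unfold gg
    have h1 : Real.sin (Real.pi * (3 / 4)) = √2 / 2 := by
      rw [show Real.pi * (3 / 4) = Real.pi - Real.pi / 4 by ring, Real.sin_pi_sub,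
        Real.sin_pi_div_four]
    have h2 : Real.sin (Real.pi * (1 / 2)) = 1 := by
      rw [show Real.pi * (1 / 2) = Real.pi / 2 by ring, Real.sin_pi_div_two]
    rw [h1, h2]
    rw [show 2 * (√2 / 2) = √2 by ring, Real.log_sqrt (by norm_num)]
    ring

theorem task_conc : S_CONC := by
  intro y z hy hz hyz
  rcases eq_or_lt_of_le hy with h0 | h0
  · subst h0
    have := concE (y := 0) le_rfl (by norm_num)
    simp only [LL_zero, zero_add, mul_zero, Real.sin_zero, zero_mul, sub_zero] at this ⊢
    norm_num at this ⊢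
    rw [show (1 / 2 : ℝ) = 1 / 2 by rfl, LL_half] at this
    linarith
  · rcases eq_or_lt_of_le (show y ≤ 1 by linarith) with h1 | h1
    · subst h1
      have hz0 : z = 0 := by linarith
      subst hz0
      have := concE (y := 1) (by norm_num) le_rfl
      simp only [LL_zero, LL_one, mul_one, Real.sin_pi, mul_zero, zero_mul, add_zero,
        sub_zero] at this ⊢
      norm_num [LL_one] at this ⊢
      linarith
    · have := concH h0 h1 hz (by linarith)
      have := concE (y := y) h0.le h1.le
      linarith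

end Pool.Agent.W51.BS
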