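import Pool.Agent.W719.BS.Stubs

set_option autoImplicit false

namespace Pool.Agent.W51.BS

open Real MeasureTheory intervalIntegral Pool.Agent.W719.BS

/-- the integrand of `LL` -/
noncomputable def gg (t : ℝ) : ℝ := Real.log (2 * Real.sin (Real.pi * t))

theorem ii (a b : ℝ) : IntervalIntegrable gg volume a b := by
  have h : MeromorphicOn (fun t : ℝ => 2 * Real.sin (Real.pi * t)) (Set.uIcc a b) := by
    intro x _
    apply AnalyticAt.meromorphicAt
    fun_prop
  exact h.intervalIntegrable_log

theorem gg_meas : Measurable gg := by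
  unfold gg
  fun_prop

theorem LL_eq (x : ℝ) : LL x = ∫ t in (0:ℝ)..x, gg t := rfl

theorem LL_sub (a b : ℝ) : LL b - LL a = ∫ t in a..b, gg t := by
  rw [LL_eq, LL_eq, integral_interval_sub_left (ii 0 b) (ii 0 a)]

theorem LL_cont : Continuous LL := by
  exact continuous_primitive ii 0

theorem sin_pos' {x : ℝ} (h0 : 0 < x) (h1 : x < 1) : 0 < Real.sin (Real.pi * x) := by
  apply Real.sin_pos_of_pos_of_lt_pi
  · positivity
  · nlinarith [Real.pi_pos]

theorem gg_contAt {x : ℝ} (h0 : 0 < x) (h1 : x < 1) : ContinuousAt gg x := by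
  unfold gg
  have := sin_pos' h0 h1
  apply ContinuousAt.log
  · fun_prop
  · positivity

theorem LL_hasDeriv {x : ℝ} (h0 : 0 < x) (h1 : x < 1) : HasDerivAt LL (gg x) x := by
  have hs : StronglyMeasurableAtFilter gg (nhds x) :=
    gg_meas.stronglyMeasurable.stronglyMeasurableAtFilter
  exact integral_hasDerivAt_right (ii 0 x) hs (gg_contAt h0 h1)

theorem LL_zero : LL 0 = 0 := by simp [LL_eq]

theorem LL_one : LL 1 = 0 := by
  have h1 : LL 1 = Real.pi⁻¹ * ∫ x in (0:ℝ)..Real.pi, Real.log (2 * Real.sin x) := by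
    rw [LL_eq]
    have := integral_comp_mul_left (a := 0) (b := 1) (fun x => Real.log (2 * Real.sin x))
      (Real.pi_ne_zero)
    simpa [gg] using this
  have h2 : ∫ x in (0:ℝ)..Real.pi, Real.log (2 * Real.sin x) =
      ∫ x in (0:ℝ)..Real.pi, (Real.log 2 + Real.log (Real.sin x)) := by
    rw [integral_of_le Real.pi_pos.le, integral_of_le Real.pi_pos.le,
      integral_Ioc_eq_integral_Ioo, integral_Ioc_eq_integral_Ioo]
    apply setIntegral_congr_fun measurableSet_Ioo
    intro x hx
    have := Real.sin_pos_of_pos_of_lt_pi hx.1 hx.2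
    simp only
    rw [Real.log_mul two_ne_zero this.ne']
  have h3 : IntervalIntegrable (fun x => Real.log (Real.sin x)) volume 0 Real.pi :=
    intervalIntegrable_log_sin
  rw [h1, h2, integral_add intervalIntegrable_const h3, integral_log_sin_zero_pi]
  simp
  ring

theorem gg_symm (t : ℝ) : gg (1 - t) = gg t := by
  unfold gg
  have : Real.pi * (1 - t) = Real.pi - Real.pi * t := by ring
  rw [this, Real.sin_pi_sub]

theorem LL_symm (x : ℝ) : LL (1 - x) = - LL x := by
  have h1 := LL_sub (1 - x) 1
  rw [LL_one] at h1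
  have h2 : ∫ t in (1 - x)..1, gg t = ∫ t in (0:ℝ)..x, gg (1 - t) := by
    rw [integral_comp_sub_left gg 1]
    simp
  rw [h2] at h1
  simp only [gg_symm] at h1
  rw [← LL_eq] at h1
  linarith

theorem LL_half : LL (1 / 2) = 0 := by
  have := LL_symm (1 / 2)
  norm_num at this
  norm_num
  linarith

end Pool.Agent.W51.BS
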