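import Pool.Agent.W51.BS.LL

set_option autoImplicit false

namespace Pool.Agent.W51.BS

open Real MeasureTheory intervalIntegral Finset Pool.Agent.W719.BS

theorem D_succ (N n : ℕ) : D N (n + 1) = D N n * (2 * Real.sin (Real.pi * (((n : ℝ) + 1) / N))) := by
  unfold D
  rw [prod_range_succ, mul_div_assoc]

theorem fac_pos {N j : ℕ} (h : j + 1 < N) :
    0 < 2 * Real.sin (Real.pi * (((j : ℝ) + 1) / N)) := by
  have hN : (0 : ℝ) < N := by
    have : 0 < N := by omega
    exact_mod_cast this
  have := sin_pos' (x := ((j : ℝ) + 1) / N) (by positivity)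
    (by rw [div_lt_one hN]; exact_mod_cast h)
  positivity

theorem D_pos {N n : ℕ} (h : n < N) : 0 < D N n := by
  induction n with
  | zero => simp [D]
  | succ n ih =>
    rw [D_succ]
    exact mul_pos (ih (by omega)) (fac_pos h)

theorem D_full {N : ℕ} (h : 0 < N) : D N (N - 1) = N := by
  obtain ⟨M, rfl⟩ : ∃ M, N = M + 1 := ⟨N - 1, by omega⟩
  have hμ := Complex.isPrimitiveRoot_exp (M + 1) (by omega)
  have h1 := hμ.prod_one_sub_pow_eq_order
  have h2 := congrArg norm h1
  rw [norm_prod] at h2
  simp only [Nat.add_sub_cancel]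
  have h3 : ‖((M : ℂ) + 1)‖ = ((M + 1 : ℕ) : ℝ) := by
    have : ((M : ℂ) + 1) = ((M + 1 : ℕ) : ℂ) := by push_cast; ring
    rw [this, Complex.norm_natCast]
  rw [h3] at h2
  rw [← h2]
  unfold D
  apply prod_congr rfl
  intro j hj
  rw [Finset.mem_range] at hj
  have hpos := fac_pos (N := M + 1) (j := j) (by omega)
  rw [← Complex.exp_nat_mul, norm_sub_rev]
  have e : (((j + 1 : ℕ) : ℂ)) * (2 * Real.pi * Complex.I / ((M + 1 : ℕ) : ℂ)) =
      Complex.I * ((2 * (Real.pi * (((j : ℝ) + 1) / ((M + 1 : ℕ) : ℝ))) : ℝ) : ℂ) := by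
    push_cast
    ring
  rw [e, Complex.norm_exp_I_mul_ofReal_sub_one, mul_div_cancel_left₀ _ two_ne_zero, Real.norm_eq_abs,
    abs_of_pos hpos, mul_div_assoc]

theorem D_mul {N n : ℕ} (h : n < N) : D N n * D N (N - 1 - n) = N := by
  have hN : (N : ℝ) ≠ 0 := by
    have : N ≠ 0 := by omega
    exact_mod_cast this
  obtain ⟨m, hm⟩ : ∃ m, N - 1 = n + m := ⟨N - 1 - n, by omega⟩
  have h1 := D_full (N := N) (by omega)
  rw [hm] at h1
  have h2 : D N (n + m) = D N n * ∏ j ∈ range m, 2 * Real.sin (Real.pi * ((n + j : ℕ) + 1) / N) := by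
    unfold D
    rw [prod_range_add]
  rw [← prod_range_reflect] at h2
  have h3 : ∏ j ∈ range m, 2 * Real.sin (Real.pi * ((n + (m - 1 - j) : ℕ) + 1) / N) = D N m := by
    unfold D
    apply prod_congr rfl
    intro j hj
    rw [Finset.mem_range] at hj
    have e : ((n + (m - 1 - j) : ℕ) : ℝ) + 1 = N - (j + 1) := by
      have : (n + (m - 1 - j) : ℕ) + 1 + (j + 1) = N := by omega
      have : (((n + (m - 1 - j) : ℕ) + 1 + (j + 1) : ℕ) : ℝ) = N := by exact_mod_cast this
      push_cast at this ⊢
      linarith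
    rw [e]
    have e2 : Real.pi * ((N : ℝ) - (j + 1)) / N = Real.pi - Real.pi * (j + 1) / N := by
      field_simp
    rw [e2, Real.sin_pi_sub]
  rw [h3] at h2
  have : N - 1 - n = m := by omega
  rw [this, ← h2, h1]

/-- the error -/
noncomputable def eps (N n : ℕ) : ℝ :=
  Real.log (D N n) - Real.log N / 2 - N * LL ((n + 1 / 2) / N)

theorem eps_symm {N n : ℕ} (h : n < N) : eps N n + eps N (N - 1 - n) = 0 := by
  have hN : (N : ℝ) ≠ 0 := by
    have : N ≠ 0 := by omega
    exact_mod_cast this
  have h1 := congrArg Real.log (D_mul h)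
  rw [Real.log_mul (D_pos h).ne' (D_pos (by omega)).ne'] at h1
  have e : (((N - 1 - n : ℕ) : ℝ) + 1 / 2) / N = 1 - ((n : ℝ) + 1 / 2) / N := by
    have : (((N - 1 - n : ℕ) + 1 + n : ℕ) : ℝ) = N := by
      congr 1
      omega
    push_cast at this
    field_simp
    linarith
  unfold eps
  rw [e, LL_symm]
  linarith

/-- the midpoint error -/
noncomputable def ph (m s : ℝ) : ℝ := 2 * gg m - (gg (m + s) + gg (m - s))

theorem ph_bounds {m s c : ℝ} (hs : 0 ≤ s) (h0 : 0 < m - s) (h1 : m + s < 1) (hc : 0 < c)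
    (hc1 : c ≤ Real.sin (Real.pi * (m + s))) (hc2 : c ≤ Real.sin (Real.pi * (m - s))) :
    0 ≤ ph m s ∧ ph m s ≤ (Real.pi * s) ^ 2 / c ^ 2 := by
  have s1 := sin_pos' (x := m) (by linarith) (by linarith)
  have s2 := sin_pos' (x := m + s) (by linarith) (by linarith)
  have s3 := sin_pos' (x := m - s) (by linarith) (by linarith)
  have e : Real.sin (Real.pi * (m + s)) * Real.sin (Real.pi * (m - s)) =
      Real.sin (Real.pi * m) ^ 2 - Real.sin (Real.pi * s) ^ 2 := by
    rw [mul_add, mul_sub, Real.sin_add, Real.sin_sub]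
    have h1 := Real.sin_sq_add_cos_sq (Real.pi * m)
    have h2 := Real.sin_sq_add_cos_sq (Real.pi * s)
    have h3 : Real.cos (Real.pi * m) ^ 2 = 1 - Real.sin (Real.pi * m) ^ 2 := by linarith
    have h4 : Real.cos (Real.pi * s) ^ 2 = 1 - Real.sin (Real.pi * s) ^ 2 := by linarith
    calc _ = Real.sin (Real.pi * m) ^ 2 * Real.cos (Real.pi * s) ^ 2 -
          Real.cos (Real.pi * m) ^ 2 * Real.sin (Real.pi * s) ^ 2 := by ring
      _ = _ := by rw [h3, h4]; ring
  set P := Real.sin (Real.pi * (m + s)) * Real.sin (Real.pi * (m - s)) with hP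
  have hPpos : 0 < P := by positivity
  have e2 : ph m s = Real.log (1 + Real.sin (Real.pi * s) ^ 2 / P) := by
    unfold ph gg
    rw [Real.log_mul two_ne_zero s1.ne', Real.log_mul two_ne_zero s2.ne',
      Real.log_mul two_ne_zero s3.ne']
    have : 1 + Real.sin (Real.pi * s) ^ 2 / P = Real.sin (Real.pi * m) ^ 2 / P := by
      rw [eq_div_iff hPpos.ne', add_mul, div_mul_cancel₀ _ hPpos.ne']
      linarith
    rw [this, Real.log_div (by positivity) hPpos.ne', hP, Real.log_mul s2.ne' s3.ne', Real.log_pow]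
    push_cast
    ring
  have hc3 : c ^ 2 ≤ P := by
    rw [sq]
    exact mul_le_mul hc1 hc2 hc.le s2.le
  rw [e2]
  constructor
  · apply Real.log_nonneg
    have : 0 ≤ Real.sin (Real.pi * s) ^ 2 / P := by positivity
    linarith
  · have h5 : 0 ≤ Real.sin (Real.pi * s) ^ 2 / P := by positivity
    have h6 := Real.log_le_sub_one_of_pos (x := 1 + Real.sin (Real.pi * s) ^ 2 / P) (by linarith)
    have h7 : Real.sin (Real.pi * s) ^ 2 ≤ (Real.pi * s) ^ 2 := by
      rw [sq_le_sq]
      exact Real.abs_sin_le_abs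
    have h8 : Real.sin (Real.pi * s) ^ 2 / P ≤ (Real.pi * s) ^ 2 / c ^ 2 := by
      apply div_le_div₀ (by positivity) h7 (by positivity) hc3
    linarith

theorem int_ph (m h : ℝ) : ∫ s in (0:ℝ)..h, ph m s = 2 * gg m * h - (LL (m + h) - LL (m - h)) := by
  have i1 : IntervalIntegrable (fun s => gg (m + s)) volume 0 h := by
    have := (ii m (m + h)).comp_add_left m
    simpa using this
  have i2 : IntervalIntegrable (fun s => gg (m - s)) volume 0 h := by
    have := (ii m (m - h)).comp_sub_left m
    simpa using this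
  unfold ph
  rw [integral_sub intervalIntegrable_const (i1.add i2), integral_add i1 i2,
    integral_comp_add_left gg m, integral_comp_sub_left gg m, intervalIntegral.integral_const, add_zero, sub_zero,
    ← LL_sub, ← LL_sub]
  simp
  ring

theorem eps_succ {N n : ℕ} (h : n + 1 < N) : eps N (n + 1) - eps N n =
    N * ∫ s in (0:ℝ)..(1 / (2 * N)), ph (((n : ℝ) + 1) / N) s := by
  have hN : (N : ℝ) ≠ 0 := by
    have : N ≠ 0 := by omega
    exact_mod_cast this
  have e1 : (((n : ℝ) + 1) / N) + 1 / (2 * N) = (((n + 1 : ℕ) : ℝ) + 1 / 2) / N := by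
    push_cast
    field_simp
    try ring
  have e2 : (((n : ℝ) + 1) / N) - 1 / (2 * N) = ((n : ℝ) + 1 / 2) / N := by
    field_simp
    try ring
  rw [int_ph, e1, e2]
  unfold eps
  rw [D_succ, Real.log_mul (D_pos (by omega)).ne' (fac_pos h).ne']
  have : Real.log (2 * Real.sin (Real.pi * (((n : ℝ) + 1) / N))) = gg (((n : ℝ) + 1) / N) := rfl
  rw [this]
  field_simp
  ring

theorem sin_lower {x d : ℝ} (hd : 0 ≤ d) (h0 : d / 2 ≤ x) (h1 : x ≤ 1 - d / 2) :
    d ≤ Real.sin (Real.pi * x) := by
  have hp := Real.pi_pos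
  rcases le_total x (1 / 2) with h | h
  · have := Real.mul_le_sin (x := Real.pi * x) (by nlinarith) (by nlinarith)
    have e : 2 / Real.pi * (Real.pi * x) = 2 * x := by field_simp
    rw [e] at this
    linarith
  · have := Real.mul_le_sin (x := Real.pi * (1 - x)) (by nlinarith) (by nlinarith)
    have e : 2 / Real.pi * (Real.pi * (1 - x)) = 2 * (1 - x) := by field_simp
    have e2 : Real.pi * (1 - x) = Real.pi - Real.pi * x := by ring
    rw [e, e2, Real.sin_pi_sub] at this
    linarith

/-- bounds for the increments -/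
theorem incr {N n : ℕ} (h : n + 1 < N) {d : ℝ} (hd : 0 < d)
    (h0 : d * N ≤ 2 * n + 1) (h1 : d * N ≤ 2 * N - 2 * n - 3) :
    0 ≤ eps N (n + 1) - eps N n ∧
      eps N (n + 1) - eps N n ≤ Real.pi ^ 2 / (8 * d ^ 2 * N ^ 2) := by
  have hN : (0 : ℝ) < N := by
    have : 0 < N := by omega
    exact_mod_cast this
  have hb : ∀ s : ℝ, 0 ≤ s → s ≤ 1 / (2 * N) → 0 ≤ ph (((n : ℝ) + 1) / N) s ∧
      ph (((n : ℝ) + 1) / N) s ≤ Real.pi ^ 2 / (4 * d ^ 2 * N ^ 2) := by
    intro s hs hs1
    have hn : (n : ℝ) + 2 ≤ N := by exact_mod_cast h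
    have a1 : d / 2 ≤ ((n : ℝ) + 1) / N - s := by
      have : d / 2 ≤ ((n : ℝ) + 1) / N - 1 / (2 * N) := by
        rw [← sub_nonneg]
        have : ((n : ℝ) + 1) / N - 1 / (2 * N) - d / 2 = (2 * n + 1 - d * N) / (2 * N) := by
          field_simp
          ring
        rw [this]
        apply div_nonneg <;> linarith
      linarith
    have a2 : ((n : ℝ) + 1) / N + s ≤ 1 - d / 2 := by
      have : ((n : ℝ) + 1) / N + 1 / (2 * N) ≤ 1 - d / 2 := by
        rw [← sub_nonneg]
        have : 1 - d / 2 - (((n : ℝ) + 1) / N + 1 / (2 * N)) =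
            (2 * N - 2 * n - 3 - d * N) / (2 * N) := by
          field_simp
          ring
        rw [this]
        apply div_nonneg <;> linarith
      linarith
    have key := ph_bounds (m := ((n : ℝ) + 1) / N) (s := s) (c := d) hs (by linarith) (by linarith)
      hd (sin_lower hd.le (by linarith) a2) (sin_lower hd.le a1 (by linarith))
    refine ⟨key.1, key.2.trans ?_⟩
    have : Real.pi * s ≤ Real.pi * (1 / (2 * N)) := by
      apply mul_le_mul_of_nonneg_left hs1 Real.pi_pos.le
    have h9 : (Real.pi * s) ^ 2 ≤ (Real.pi * (1 / (2 * N))) ^ 2 := by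
      apply pow_le_pow_left₀ _ this
      positivity
    calc (Real.pi * s) ^ 2 / d ^ 2 ≤ (Real.pi * (1 / (2 * N))) ^ 2 / d ^ 2 := by gcongr
      _ = _ := by
        field_simp
        ring
  rw [eps_succ h]
  have hh : (0 : ℝ) ≤ 1 / (2 * N) := by positivity
  constructor
  · apply mul_nonneg hN.le
    apply intervalIntegral.integral_nonneg hh
    intro s hs
    exact (hb s hs.1 hs.2).1
  · have := intervalIntegral.norm_integral_le_of_norm_le_const (a := 0) (b := 1 / (2 * (N : ℝ)))
      (f := fun s => ph (((n : ℝ) + 1) / N) s) (C := Real.pi ^ 2 / (4 * d ^ 2 * N ^ 2)) (by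
        intro s hs
        rw [Set.uIoc_of_le hh] at hs
        have := hb s hs.1.le hs.2
        rw [Real.norm_eq_abs, abs_of_nonneg this.1]
        exact this.2)
    rw [Real.norm_eq_abs, sub_zero, abs_of_nonneg hh] at this
    have h3 := (le_abs_self _).trans this
    calc (N : ℝ) * ∫ s in (0:ℝ)..(1 / (2 * N)), ph (((n : ℝ) + 1) / N) s
        ≤ N * (Real.pi ^ 2 / (4 * d ^ 2 * N ^ 2) * (1 / (2 * N))) :=
          mul_le_mul_of_nonneg_left h3 hN.le
      _ = _ := by
        field_simp
        ring

theorem eps_mono_succ {N n : ℕ} (h : n + 1 < N) : eps N n ≤ eps N (n + 1) := by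
  have hN : (0 : ℝ) < N := by
    have : 0 < N := by omega
    exact_mod_cast this
  have hn : (n : ℝ) + 2 ≤ N := by exact_mod_cast h
  have := (incr h (d := 1 / N) (by positivity) (by
    have : 1 / (N : ℝ) * N = 1 := by field_simp
    rw [this]
    have : (0 : ℝ) ≤ n := by positivity
    linarith) (by
    have : 1 / (N : ℝ) * N = 1 := by field_simp
    rw [this]
    linarith)).1
  linarith

theorem eps_mono {N a b : ℕ} (hab : a ≤ b) (hb : b < N) : eps N a ≤ eps N b := by
  induction b, hab using Nat.le_induction with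
  | base => exact le_rfl
  | succ b hab ih => exact (ih (by omega)).trans (eps_mono_succ hb)

theorem eps_zero {N : ℕ} (h : 0 < N) : - ((Real.log Real.pi - 1) / 2) ≤ eps N 0 := by
  have hN : (0 : ℝ) < N := by exact_mod_cast h
  have hN1 : (1 : ℝ) ≤ N := by exact_mod_cast h
  set x : ℝ := 1 / (2 * N) with hx
  have hx0 : 0 < x := by positivity
  have hx1 : x ≤ 1 / 2 := by
    rw [hx, div_le_div_iff₀ (by positivity) (by norm_num)]
    linarith
  have hLL : LL x ≤ x * Real.log (2 * Real.pi * x) - x := by
    have hi : IntervalIntegrable (fun t => Real.log (2 * Real.pi * t)) volume 0 x := by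
      have h : MeromorphicOn (fun t : ℝ => 2 * Real.pi * t) (Set.uIcc 0 x) := by
        intro x _
        apply AnalyticAt.meromorphicAt
        fun_prop
      exact h.intervalIntegrable_log
    have h1 : LL x ≤ ∫ t in (0:ℝ)..x, Real.log (2 * Real.pi * t) := by
      rw [LL_eq]
      apply integral_mono_on_of_le_Ioo hx0.le (ii 0 x) hi
      intro t ht
      have hs := sin_pos' (x := t) ht.1 (by linarith [ht.2])
      unfold gg
      apply Real.log_le_log (by positivity)
      have := Real.sin_le (x := Real.pi * t) (by have := ht.1; positivity)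
      linarith
    have h2 : ∫ t in (0:ℝ)..x, Real.log (2 * Real.pi * t) =
        x * Real.log (2 * Real.pi * x) - x := by
      rw [integral_comp_mul_left (fun t => Real.log t) (by positivity : (2 * Real.pi) ≠ 0),
        integral_log]
      simp
      field_simp
    linarith
  have hN2 : (N : ℝ) * x = 1 / 2 := by
    rw [hx]
    field_simp
  unfold eps
  have e1 : (((0 : ℕ) : ℝ) + 1 / 2) / N = x := by
    rw [hx]
    push_cast
    field_simp
    ring
  have e2 : Real.log (2 * Real.pi * x) = Real.log Real.pi - Real.log N := by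
    rw [← Real.log_div Real.pi_pos.ne' hN.ne']
    congr 1
    rw [hx]
    field_simp
  have e3 : D N 0 = 1 := by simp [D]
  rw [e1, e3, Real.log_one]
  rw [e2] at hLL
  have := mul_le_mul_of_nonneg_left hLL hN.le
  have e4 : (N : ℝ) * (x * (Real.log Real.pi - Real.log N) - x) =
      (N * x) * (Real.log Real.pi - Real.log N) - N * x := by ring
  rw [e4, hN2] at this
  linarith

theorem task_stir : S_STIR := by
  constructor
  · refine ⟨(Real.log Real.pi - 1) / 2, ?_⟩
    intro N n h
    change |eps N n| ≤ _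
    have h0 := eps_zero (N := N) (by omega)
    have h1 := eps_mono (N := N) (a := 0) (b := n) (by omega) h
    have h2 := eps_mono (N := N) (a := n) (b := N - 1) (by omega) (by omega)
    have h3 := eps_symm (N := N) (n := 0) (by omega)
    rw [Nat.sub_zero] at h3
    rw [abs_le]
    constructor <;> linarith
  · intro δ hδ
    refine ⟨Real.pi ^ 2 / (8 * δ ^ 2), ?_⟩
    -- reduce to `n ≤ N - 1 - n`
    have main : ∀ N a : ℕ, 2 * a + 1 ≤ N → δ * N ≤ 2 * a + 1 →
        |eps N a| ≤ Real.pi ^ 2 / (8 * δ ^ 2) / N := by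
      intro N a h1 h2
      have hN : (0 : ℝ) < N := by
        have : 0 < N := by omega
        exact_mod_cast this
      obtain ⟨m, hm⟩ : ∃ m, N - 1 - a = a + m := ⟨N - 1 - a - a, by omega⟩
      have key : ∀ k : ℕ, k ≤ m → 0 ≤ eps N (a + k) - eps N a ∧
          eps N (a + k) - eps N a ≤ k * (Real.pi ^ 2 / (8 * δ ^ 2 * N ^ 2)) := by
        intro k
        induction k with
        | zero => intro _; simp
        | succ k ih =>
          intro hk
          have ih' := ih (by omega)
          have hk2 : 2 * a + k + 2 ≤ N := by omega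
          have hk2' : 2 * (a : ℝ) + k + 2 ≤ N := by exact_mod_cast hk2
          have hk0 : (0 : ℝ) ≤ k := by positivity
          have := incr (N := N) (n := a + k) (by omega) hδ (by push_cast; linarith)
            (by push_cast; linarith)
          have e : a + (k + 1) = a + k + 1 := by ring
          rw [e]
          push_cast
          constructor
          · linarith [this.1, ih'.1]
          · linarith [this.2, ih'.2]
      have k1 := key m le_rfl
      have k2 := eps_symm (N := N) (n := a) (by omega)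
      rw [hm] at k2
      have k3 : (m : ℝ) * (Real.pi ^ 2 / (8 * δ ^ 2 * N ^ 2)) ≤ Real.pi ^ 2 / (8 * δ ^ 2) / N := by
        have : (m : ℝ) ≤ N := by
          have : m ≤ N := by omega
          exact_mod_cast this
        calc (m : ℝ) * (Real.pi ^ 2 / (8 * δ ^ 2 * N ^ 2))
            ≤ N * (Real.pi ^ 2 / (8 * δ ^ 2 * N ^ 2)) := by gcongr
          _ = _ := by
            field_simp
      rw [abs_le]
      constructor <;> linarith [k1.1, k1.2]
    intro N n h h1 h2
    change |eps N n| ≤ _
    have hN : (0 : ℝ) < N := by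
      have : 0 < N := by omega
      exact_mod_cast this
    have hnN : (n : ℝ) + 1 ≤ N := by exact_mod_cast h
    rcases le_total (2 * n + 1) N with h3 | h3
    · exact main N n h3 (by linarith)
    · have k2 := eps_symm (N := N) (n := n) h
      have k3 : |eps N n| = |eps N (N - 1 - n)| := by
        have : eps N n = - eps N (N - 1 - n) := by linarith
        rw [this, abs_neg]
      rw [k3]
      apply main N (N - 1 - n) (by omega)
      have : ((N - 1 - n : ℕ) : ℝ) = N - 1 - n := by
        have : (((N - 1 - n : ℕ) + 1 + n : ℕ) : ℝ) = N := by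
          congr 1
          omega
        push_cast at this
        linarith
      rw [this]
      linarith

end Pool.Agent.W51.BS
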